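import Pool.Agent.Helper22.FF.Sect
import Pool.Agent.Helper22.TW.Stmts

/-!
# Module VL: the value of a quotient at a place of a base change
-/

set_option autoImplicit false

namespace Pool.Agent.Helper22.FF

open Pool.Agent.Helper14.BSC Polynomial Pool.Agent.Helper60.FF Pool.Agent.Helper18.FF3

theorem vl_div {k Ω : Type} [Field k] [Field Ω] [Algebra k Ω] {D : Sec k Ω} {p : ℕ}
    [Fact p.Prime] {σ : k →+* ℂ_[p]} (P : Place D p σ) (y y' : P.C) (h' : P.φ y' ≠ 0) :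
    ∃ h : (y : LL D) / (y' : LL D) ∈ P.C, P.φ ⟨_, h⟩ * P.φ y' = P.φ y := by
  have h1 : ¬ ((y' : LL D) = 0 ∨ (y' : LL D)⁻¹ ∉ P.C) := fun h => h' ((P.ker y').2 h)
  push Not at h1
  obtain ⟨h2, h3⟩ := h1
  have h4 : (y : LL D) / (y' : LL D) ∈ P.C := by
    rw [div_eq_mul_inv]
    exact P.C.mul_mem _ _ y.2 h3
  refine ⟨h4, ?_⟩
  rw [← map_mul]
  congr 1
  apply Subtype.ext
  change (y : LL D) / (y' : LL D) * (y' : LL D) = (y : LL D)
  exact div_mul_cancel₀ _ h2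

/-- the module statement -/
theorem st_VL (hPSI : ST_PSI) (hRPL : Pool.Agent.Helper22.TW.ST_RPL) : ST_VL := by
  intro k Ω _ _ _ _ _ D k' D' hL t t' htt ht p _ σ' P' c c' hc hc'
  obtain ⟨P, hP⟩ := hRPL k k' Ω (algebraMap k k') D D' (fun c => rfl) (by
    intro x hx g
    exact hL x (fun g _ => hx g) g (fun a ha => absurd ha (Set.notMem_empty a))) p σ' P'
  obtain ⟨hP1, hP2⟩ := hP t t' htt
  obtain ⟨h1, h2⟩ := hPSI k Ω D t p (σ'.comp (algebraMap k k')) P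
  obtain ⟨bc, hbc⟩ := P'.base c
  obtain ⟨bc', hbc'⟩ := P'.base c'
  by_cases hm : t' ∈ P'.C
  · have hm' := hP1.2 hm
    rw [h2 hm', hP2 hm' hm] at hc hc' ⊢
    simp only [eval_sub, eval_X, eval_C] at hc hc' ⊢
    have e1 : P'.φ (⟨t', hm⟩ - ⟨_, bc⟩) = P'.φ ⟨t', hm⟩ - σ' c := by
      rw [map_sub, hbc]
    have e2 : P'.φ (⟨t', hm⟩ - ⟨_, bc'⟩) = P'.φ ⟨t', hm⟩ - σ' c' := by
      rw [map_sub, hbc']
    have hne : P'.φ ⟨t', hm⟩ - σ' c' ≠ 0 := by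
      intro h0
      apply hc'
      rw [← neg_sub, h0, neg_zero]
    obtain ⟨h, hh⟩ := vl_div P' (⟨t', hm⟩ - ⟨_, bc⟩) (⟨t', hm⟩ - ⟨_, bc'⟩) (by rw [e2]; exact hne)
    rw [e1, e2] at hh
    refine ⟨h, ?_, ?_⟩
    · intro h0
      have h0' : P'.φ ⟨_, h⟩ = 0 := h0
      rw [h0', zero_mul] at hh
      apply hc
      rw [← neg_sub, ← hh, neg_zero]
    · have hh' : P'.φ ⟨_, h⟩ * (P'.φ ⟨t', hm⟩ - σ' c') = P'.φ ⟨t', hm⟩ - σ' c := hh
      change P'.φ ⟨_, h⟩ * (σ' c' - P'.φ ⟨t', hm⟩) = σ' c - P'.φ ⟨t', hm⟩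
      linear_combination (-1 : ℂ_[p]) * hh'
  · have hm' : t ∉ P.C := fun h => hm (hP1.1 h)
    rw [h1 hm'] at hc hc' ⊢
    simp only [eval_one]
    have hinv : t'⁻¹ ∈ P'.C := (P'.C.mem_or_inv_mem t').resolve_left hm
    have ht0 : t' ≠ 0 := by
      intro h0
      apply hm
      rw [h0]
      exact P'.C.zero_mem
    have hφ0 : P'.φ ⟨t'⁻¹, hinv⟩ = 0 := by
      rw [P'.ker]
      right
      change (t'⁻¹)⁻¹ ∉ P'.C
      rw [inv_inv]
      exact hm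
    have e1 : P'.φ (1 - ⟨_, bc⟩ * ⟨t'⁻¹, hinv⟩) = 1 := by
      rw [map_sub, map_mul, hφ0, mul_zero, sub_zero, map_one]
    have e2 : P'.φ (1 - ⟨_, bc'⟩ * ⟨t'⁻¹, hinv⟩) = 1 := by
      rw [map_sub, map_mul, hφ0, mul_zero, sub_zero, map_one]
    obtain ⟨h, hh⟩ := vl_div P' (1 - ⟨_, bc⟩ * ⟨t'⁻¹, hinv⟩) (1 - ⟨_, bc'⟩ * ⟨t'⁻¹, hinv⟩)
      (by rw [e2]; exact one_ne_zero)
    rw [e1, e2, mul_one] at hh
    have hq : (t' - algebraMap k' (LL D') c) / (t' - algebraMap k' (LL D') c') =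
        ((1 - ⟨_, bc⟩ * ⟨t'⁻¹, hinv⟩ : P'.C) : LL D') /
          ((1 - ⟨_, bc'⟩ * ⟨t'⁻¹, hinv⟩ : P'.C) : LL D') := by
      change _ = (1 - algebraMap k' (LL D') c * t'⁻¹) / (1 - algebraMap k' (LL D') c' * t'⁻¹)
      have h5 : t' - algebraMap k' (LL D') c = t' * (1 - algebraMap k' (LL D') c * t'⁻¹) := by
        field_simp
      have h6 : t' - algebraMap k' (LL D') c' = t' * (1 - algebraMap k' (LL D') c' * t'⁻¹) := by
        field_simp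
      rw [h5, h6, mul_div_mul_left _ _ ht0]
    have h7 : (t' - algebraMap k' (LL D') c) / (t' - algebraMap k' (LL D') c') ∈ P'.C := by
      rw [hq]
      exact h
    have h8 : P'.φ ⟨_, h7⟩ = 1 := by
      rw [← hh]
      congr 1
      exact Subtype.ext hq
    refine ⟨h7, ?_, ?_⟩
    · rw [h8]
      exact one_ne_zero
    · rw [h8, mul_one]

end Pool.Agent.Helper22.FF
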